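import Pool.Agent.Helper27.EX.RDefs
import Pool.Agent.Helper62.EX.TB

/-!
# MP_2857a5_co : module TP, the tree in the case of few sources and sinks
-/

set_option autoImplicit false

open Finset
open scoped Classical

namespace OT

noncomputable section

variable {n : ℕ}

/-- Every vertex of the list grows slower than linearly. -/
theorem tp_log (K : ℕ) (η : ℝ) (hη : 0 < η) :
    ∃ N : ℕ, ∀ n : ℕ, N ≤ n → ((K * (Nat.log 2 n + 1) : ℕ) : ℝ) ≤ η * (n : ℝ) := by
  have h1 : Filter.Tendsto (fun x : ℝ => Real.log x / x) Filter.atTop (nhds 0) := by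
    have := Real.isLittleO_log_id_atTop
    simpa using this.tendsto_div_nhds_zero
  set c : ℝ := η / (2 * (K + 1)) with hc
  have hcpos : 0 < c := by positivity
  have h2 : ∀ᶠ x : ℝ in Filter.atTop, Real.log x / x < c / 2 := h1.eventually_lt_const (by positivity)
  have h3 : ∀ᶠ m : ℕ in Filter.atTop, Real.log (m : ℝ) / (m : ℝ) < c / 2 :=
    tendsto_natCast_atTop_atTop.eventually h2
  obtain ⟨N0, hN0⟩ := Filter.eventually_atTop.1 h3
  obtain ⟨N1, hN1⟩ := exists_nat_gt (1 / c)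
  refine ⟨max (max N0 N1) 1, fun m hm => ?_⟩
  have hm0 : N0 ≤ m := le_trans (le_trans (le_max_left _ _) (le_max_left _ _)) hm
  have hm1 : N1 ≤ m := le_trans (le_trans (le_max_right _ _) (le_max_left _ _)) hm
  have hm2 : 1 ≤ m := le_trans (le_max_right _ _) hm
  have hmpos : (0 : ℝ) < m := by exact_mod_cast hm2
  have a1 : Real.log (m : ℝ) ≤ c / 2 * m := by
    have := hN0 m hm0
    rw [div_lt_iff₀ hmpos] at this
    exact this.le
  have a2 : (1 : ℝ) ≤ c * m := by
    have : (1 : ℝ) / c < m := lt_of_lt_of_le hN1 (by exact_mod_cast hm1)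
    rw [div_lt_iff₀ hcpos] at this
    linarith [mul_comm c (m : ℝ)]
  have a3 : ((Nat.log 2 m : ℕ) : ℝ) ≤ 2 * Real.log m := by
    have e1 : ((2 : ℕ) : ℝ) ^ (Nat.log 2 m) ≤ (m : ℝ) := by
      exact_mod_cast Nat.pow_log_le_self 2 (by omega)
    have e2 : Real.log (((2 : ℕ) : ℝ) ^ (Nat.log 2 m)) ≤ Real.log m :=
      Real.log_le_log (by positivity) e1
    rw [Real.log_pow] at e2
    have e3 : (1 : ℝ) / 2 ≤ Real.log ((2 : ℕ) : ℝ) := by
      have := Real.log_two_gt_d9
      push_cast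
      linarith
    have e4 : (0 : ℝ) ≤ ((Nat.log 2 m : ℕ) : ℝ) := Nat.cast_nonneg _
    have e5 : ((Nat.log 2 m : ℕ) : ℝ) * (1 / 2) ≤ Real.log m :=
      le_trans (mul_le_mul_of_nonneg_left e3 e4) e2
    generalize ((Nat.log 2 m : ℕ) : ℝ) = t at e5 ⊢
    linarith
  have a4 : ((Nat.log 2 m : ℕ) : ℝ) + 1 ≤ 2 * c * m := by linarith
  have a5 : (0 : ℝ) ≤ K := Nat.cast_nonneg _
  calc ((K * (Nat.log 2 m + 1) : ℕ) : ℝ) = K * (((Nat.log 2 m : ℕ) : ℝ) + 1) := by push_cast; ring
    _ ≤ K * (2 * c * m) := mul_le_mul_of_nonneg_left a4 a5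
    _ ≤ (K + 1) * (2 * c * m) := by
        apply mul_le_mul_of_nonneg_right (by linarith) (by positivity)
    _ = η * m := by rw [hc]; field_simp

/-- The position used. -/
def tp_pos (T : PTree n) (F : Finset (Fin n)) (τ : Bool) (v : Fin n) : Bool :=
  xor (xor (T.col v) (decide (v ∈ F))) (!τ)

/-- The tail of the arc above `v`. -/
def tp_tail (T : PTree n) (v : Fin n) : Fin n := if T.sg v = true then T.par v else v

/-- The head of the arc above `v`. -/
def tp_head (T : PTree n) (v : Fin n) : Fin n := if T.sg v = true then v else T.par v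

theorem tp_arc (T : PTree n) (v : Fin n) (hv : (v : ℕ) ≠ 0) :
    T.Arc (tp_tail T v) (tp_head T v) := by
  unfold tp_tail tp_head PTree.Arc
  by_cases h : T.sg v = true
  · simp [h, hv]
  · have h' : T.sg v = false := by simpa using h
    simp [h', hv]

theorem tp_arc_ex (T : PTree n) (x y : Fin n) (h : T.Arc x y) :
    ∃ v : Fin n, (v : ℕ) ≠ 0 ∧ x = tp_tail T v ∧ y = tp_head T v := by
  rcases h with ⟨h1, h2, h3⟩ | ⟨h1, h2, h3⟩
  · exact ⟨y, h1, by simp [tp_tail, h3, h2], by simp [tp_head, h3]⟩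
  · exact ⟨x, h1, by simp [tp_tail, h3], by simp [tp_head, h3, h2]⟩

theorem tp_par_ball (T : PTree n) (v : Fin n) (hv : (v : ℕ) ≠ 0) : T.par v ∈ T.ball 1 v :=
  PTree.Nb.mem_ball (Or.inr ⟨hv, rfl⟩)

theorem tp_tail_ball (T : PTree n) (v : Fin n) (hv : (v : ℕ) ≠ 0) :
    tp_tail T v ∈ T.ball 1 v := by
  unfold tp_tail
  split_ifs
  · exact tp_par_ball T v hv
  · exact T.self_mem_ball 1 v

theorem tp_pos_tail (T : PTree n) (F : Finset (Fin n)) (τ : Bool) (v : Fin n)
    (h : tp_pos T F τ v = tp_pos T F τ (T.par v)) :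
    tp_pos T F τ (tp_tail T v) = tp_pos T F τ v ∧ tp_pos T F τ (tp_head T v) = tp_pos T F τ v := by
  unfold tp_tail tp_head
  split_ifs <;> simp [h]

theorem tp_bd_iff (T : PTree n) (F : Finset (Fin n)) (τ : Bool) (v : Fin n) (hv : (v : ℕ) ≠ 0) :
    tp_pos T F τ v = tp_pos T F τ (T.par v) ↔ v ∈ T.bd F := by
  unfold tp_pos PTree.bd
  rw [T.col_par v hv]
  simp only [mem_filter, mem_univ, true_and, hv, ne_eq, not_false_eq_true]
  by_cases a : v ∈ F <;> by_cases b : T.par v ∈ F <;> cases T.col (T.par v) <;> cases τ <;>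
    simp [a, b]

theorem tp_bal (T : PTree n) (F : Finset (Fin n)) (τ : Bool) :
    |2 * ((univ.filter fun v => tp_pos T F τ v = true).card : ℤ) - n| =
      |∑ v, (if T.col v = true then (1 : ℤ) else -1) * (if v ∈ F then -1 else 1)| := by
  have e1 : 2 * ((univ.filter fun v => tp_pos T F τ v = true).card : ℤ) - n =
      ∑ v, (if tp_pos T F τ v = true then (1 : ℤ) else -1) := by
    have : ∀ v : Fin n, (if tp_pos T F τ v = true then (1 : ℤ) else -1) =
        2 * (if tp_pos T F τ v = true then (1 : ℤ) else 0) - 1 := by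
      intro v; split_ifs <;> norm_num
    simp_rw [this]
    rw [Finset.sum_sub_distrib, ← Finset.mul_sum]
    simp
  rw [e1]
  have e2 : ∑ v, (if tp_pos T F τ v = true then (1 : ℤ) else -1) =
      (if τ = true then 1 else -1) *
        ∑ v, (if T.col v = true then (1 : ℤ) else -1) * (if v ∈ F then -1 else 1) := by
    rw [Finset.mul_sum]
    refine Finset.sum_congr rfl fun v _ => ?_
    unfold tp_pos
    by_cases a : v ∈ F <;> cases T.col v <;> cases τ <;> simp [a]
  rw [e2, abs_mul]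
  cases τ <;> simp

/-- The module TP: `treeP` from the layout lemma (for the radius eight) and the lemma on
directed bare paths.  Usage: `treeP_of Δ (layout Δ 8 1 one_pos) (segments Δ)`. -/
theorem treeP_of (Δ : ℕ)
    (hlayout : ∃ (K : ℕ) (η' : ℝ), 0 < η' ∧
    ∀ (n : ℕ) (T : PTree n), T.Deg Δ → K ≤ n →
    ∀ pos far : Fin n → Bool, T.Alt pos far ∅ →
    ∀ h : Fin n → ℤ, (∀ v, |h v| ≤ 1) →
    ∀ M : Finset (Fin n), (1 : ℝ) * (n : ℝ) ≤ (M.card : ℝ) →
    ∃ F P Q : Finset (Fin n), Layout T pos far 8 F P Q ∧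
      (P ∪ Q).card ≤ K * (Nat.log 2 n + 1) ∧
      |∑ v, h v * (if v ∈ F then -1 else 1)| ≤ K ∧
      η' * (n : ℝ) ≤ ((M ∩ F).card : ℝ) ∧ η' * (n : ℝ) ≤ ((M \ F).card : ℝ))
    (hsegments : ∃ (η η' : ℝ) (N : ℕ), 0 < η ∧ 0 < η' ∧
    ∀ (n : ℕ) (T : PTree n), T.Deg Δ → N ≤ n →
    ((univ.filter fun v => T.Src v).card : ℝ) ≤ η * (n : ℝ) →
    ((univ.filter fun v => T.Snk v).card : ℝ) ≤ η * (n : ℝ) →
    ∀ (pos : Fin n → Bool) (Bad : Finset (Fin n)), (Bad.card : ℝ) ≤ η' * (n : ℝ) →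
    (∀ v : Fin n, (v : ℕ) ≠ 0 → v ∉ Bad → T.par v ∉ Bad → pos v ≠ pos (T.par v)) →
    ∃ (A : Finset (Fin n)) (seg : Fin n → ℕ → Fin n), η' * (n : ℝ) ≤ (A.card : ℝ) ∧
      Segs T pos Bad A seg) :
    ∃ (η : ℝ) (K : ℕ) (η' : ℝ), 0 < η ∧ 0 < η' ∧
    ∀ (n : ℕ) (T : PTree n), T.Deg Δ → K ≤ n →
    ((univ.filter fun v => T.Src v).card : ℝ) ≤ η * (n : ℝ) →
    ((univ.filter fun v => T.Snk v).card : ℝ) ≤ η * (n : ℝ) → ∀ τ : Bool,
    ∃ (pos : Fin n → Bool) (Tl : Finset (Fin n)) (hd : Fin n → Fin n) (A : Finset (Fin n))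
      (seg : Fin n → ℕ → Fin n), TreeP T τ K η' pos Tl hd A seg := by
  obtain ⟨η, η', N, hη, hη', hseg⟩ := hsegments
  obtain ⟨K, η'', hη'', hlay⟩ := hlayout
  obtain ⟨N1, hN1⟩ := tp_log K η' hη'
  refine ⟨η, max (max K N) N1, η', hη, hη', fun n T hT hn hsrc hsnk τ => ?_⟩
  have hK : K ≤ n := le_trans (le_trans (le_max_left _ _) (le_max_left _ _)) hn
  have hN : N ≤ n := le_trans (le_trans (le_max_right _ _) (le_max_left _ _)) hn
  have hN1' : N1 ≤ n := le_trans (le_max_right _ _) hn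
  have hKle : K ≤ max (max K N) N1 := le_trans (le_max_left _ _) (le_max_left _ _)
  have hAlt : T.Alt T.col (fun _ => false) ∅ := by
    intro v hv _
    right
    rw [T.col_par v hv]
    cases T.col (T.par v) <;> simp
  obtain ⟨F, P, Q, hL, hcard, hbal, -, -⟩ := hlay n T hT hK T.col (fun _ => false) hAlt
    (fun v => if T.col v = true then 1 else -1) (by intro v; split_ifs <;> simp) univ (by simp)
  set pos := tp_pos T F τ with hpos
  have hQ : ∀ v, v ∈ T.bd F ↔ v ∈ Q := by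
    intro v
    constructor
    · intro h
      rcases hL.bd v h with h' | ⟨h', -⟩
      · exact h'
      · simp at h'
    · intro h
      exact (hL.sgl v h).1
  have hQ0 : ∀ v ∈ Q, (v : ℕ) ≠ 0 := by
    intro v hv
    have := (hQ v).2 hv
    simp only [PTree.bd, mem_filter] at this
    exact this.2.1
  have hQpos : ∀ v ∈ Q, pos v = τ := by
    intro v hv
    have := (hL.sgl v hv).2
    rw [hpos]
    unfold tp_pos
    rw [this]
    cases τ <;> rfl
  have hQpar : ∀ v ∈ Q, pos v = pos (T.par v) := fun v hv =>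
    (tp_bd_iff T F τ v (hQ0 v hv)).2 ((hQ v).2 hv)
  have hQsep : ∀ a ∈ Q, ∀ b ∈ Q, b ∈ T.ball 8 a → a = b := by
    intro a ha b hb h
    by_contra hne
    exact hL.sep a (mem_union_right _ ha) b (mem_union_right _ hb) hne h
  set Tl := Q.image (tp_tail T) with hTl
  have hex : ∀ x ∈ Tl, ∃ v ∈ Q, tp_tail T v = x := fun x hx => by
    simpa [hTl] using hx
  let hd : Fin n → Fin n := fun x => if h : x ∈ Tl then tp_head T (hex x h).choose else x
  have hhd : ∀ v ∈ Q, hd (tp_tail T v) = tp_head T v := by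
    intro v hv
    have hx : tp_tail T v ∈ Tl := mem_image_of_mem _ hv
    simp only [hd, dif_pos hx]
    set w := (hex _ hx).choose with hw
    have hw1 : w ∈ Q := (hex _ hx).choose_spec.1
    have hw2 : tp_tail T w = tp_tail T v := (hex _ hx).choose_spec.2
    have b1 := tp_tail_ball T v (hQ0 v hv)
    have b2 := tp_tail_ball T w (hQ0 w hw1)
    rw [hw2] at b2
    have b3 : w ∈ T.ball (1 + 1) v := PTree.ball_trans b1 (PTree.mem_ball_comm.1 b2)
    rw [hQsep v hv w hw1 (T.ball_mono (by norm_num) v b3)]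
  have hcTl : Tl.card ≤ K * (Nat.log 2 n + 1) :=
    le_trans card_image_le (le_trans (card_le_card subset_union_right) hcard)
  obtain ⟨A, seg, hA, hSegs⟩ := hseg n T hT hN hsrc hsnk pos Tl
    (le_trans (by exact_mod_cast hcTl) (hN1 n hN1')) (by
      intro v hv h1 h2 h3
      have hvQ : v ∈ Q := (hQ v).1 ((tp_bd_iff T F τ v hv).1 h3)
      have : tp_tail T v ∈ Tl := mem_image_of_mem _ hvQ
      unfold tp_tail at this
      split_ifs at this
      · exact h2 this
      · exact h1 this)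
  refine ⟨pos, Tl, hd, A, seg, ?_, ?_, hA, ?_, ?_, ?_, hSegs⟩
  · exact le_trans hcTl (Nat.mul_le_mul_right _ hKle)
  · rw [hpos, tp_bal]
    exact le_trans hbal (by exact_mod_cast hKle)
  · intro a ha b hb hne h
    obtain ⟨v, hv, rfl⟩ := hex a ha
    obtain ⟨w, hw, rfl⟩ := hex b hb
    have b1 := tp_tail_ball T v (hQ0 v hv)
    have b2 := PTree.mem_ball_comm.1 (tp_tail_ball T w (hQ0 w hw))
    have b3 : w ∈ T.ball (1 + 3 + 1) v := PTree.ball_trans (PTree.ball_trans b1 h) b2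
    exact hne (by rw [hQsep v hv w hw (T.ball_mono (by norm_num) v b3)])
  · intro x hx
    obtain ⟨v, hv, rfl⟩ := hex x hx
    rw [hhd v hv]
    have h1 := tp_pos_tail T F τ v (hQpar v hv)
    exact ⟨tp_arc T v (hQ0 v hv), h1.1.trans (hQpos v hv), h1.2.trans (hQpos v hv)⟩
  · intro x y hxy
    obtain ⟨v, hv, rfl, rfl⟩ := tp_arc_ex T x y hxy
    by_cases hp : pos v = pos (T.par v)
    · right
      have hvQ : v ∈ Q := (hQ v).1 ((tp_bd_iff T F τ v hv).1 hp)
      exact ⟨mem_image_of_mem _ hvQ, (hhd v hvQ).symm⟩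
    · left
      unfold tp_tail tp_head
      split_ifs
      · exact fun h => hp h.symm
      · exact hp

end

end OT
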