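import Pool.Agent.Helper27.EX.IDefs
import Pool.Agent.Helper75.EX.TP
import Pool.Agent.Helper23.EX.SG

/-!
# MP_2857a5_co : module TIP, the tree in the case of few sources and sinks (two near-cliques)
-/

set_option autoImplicit false

open Finset
open scoped Classical

namespace OT

noncomputable section

variable {n : ℕ}

/-- The segment of `a` is far from `B`. -/
def tip_far (T : PTree n) (seg : Fin n → ℕ → Fin n) (B : Finset (Fin n)) (a : Fin n) : Prop :=
  ∀ j, j ≤ 8 → ∀ b ∈ B, seg a j ∉ T.ball 3 b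

/-- Few segments come close to a given set. -/
theorem tip_few {Δ : ℕ} (T : PTree n) (hT : T.Deg Δ) (A : Finset (Fin n))
    (seg : Fin n → ℕ → Fin n)
    (sep : ∀ a ∈ A, ∀ a' ∈ A, a ≠ a' → ∀ j j', j ≤ 8 → j' ≤ 8 → seg a' j' ∉ T.ball 3 (seg a j))
    (B : Finset (Fin n)) :
    (A.filter fun a => ¬ tip_far T seg B a).card ≤
      B.card * (Δ + 2) ^ 3 := by
  set X := A.filter fun a => ¬ tip_far T seg B a with hX
  have hex : ∀ a ∈ X, ∃ j, j ≤ 8 ∧ ∃ b ∈ B, seg a j ∈ T.ball 3 b := by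
    intro a ha
    have := (mem_filter.1 ha).2
    unfold tip_far at this
    push Not at this
    exact this
  choose! f hf8 hfb using hex
  have hinj : Set.InjOn (fun a => seg a (f a)) X := by
    intro a ha a' ha' h
    by_contra hne
    have h1 := sep a (mem_filter.1 ha).1 a' (mem_filter.1 ha').1 hne (f a) (f a') (hf8 a ha)
      (hf8 a' ha')
    simp only at h
    rw [← h] at h1
    exact h1 (T.self_mem_ball 3 _)
  have hsub : X.image (fun a => seg a (f a)) ⊆ B.biUnion fun b => T.ball 3 b := by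
    intro y hy
    obtain ⟨a, ha, rfl⟩ := mem_image.1 hy
    obtain ⟨b, hb, hab⟩ := hfb a ha
    exact mem_biUnion.2 ⟨b, hb, hab⟩
  calc X.card = (X.image (fun a => seg a (f a))).card := (card_image_of_injOn hinj).symm
    _ ≤ (B.biUnion fun b => T.ball 3 b).card := card_le_card hsub
    _ ≤ ∑ b ∈ B, (T.ball 3 b).card := card_biUnion_le
    _ ≤ ∑ _b ∈ B, (Δ + 2) ^ 3 := sum_le_sum fun b _ => T.card_ball hT 3 b
    _ = B.card * (Δ + 2) ^ 3 := by rw [sum_const, smul_eq_mul]

/-- The module TIP: `treeIP` from `treeC` (for the radius eight).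
Usage: `treeIP_of Δ (treeC Δ 8)`. -/
theorem treeIP_of (Δ : ℕ)
    (htreeC : ∀ η : ℝ, 0 < η → ∃ (K : ℕ) (η' : ℝ), 0 < η' ∧
    ∀ (n : ℕ) (T : PTree n), T.Deg Δ → K ≤ n →
    ∀ kd : Bool → Bool → Bool, (∃ δ s, kd δ s = false) →
    ∀ m : ℤ, |(m : ℝ)| ≤ η' * (n : ℝ) →
    ∀ M : Finset (Fin n), η * (n : ℝ) ≤ (M.card : ℝ) →
    ∃ (side : Fin n → Bool) (Tc : Bool → Finset (Fin n)), TreeC T 8 kd side Tc ∧
      (∀ δ, (Tc δ).card ≤ K * (Nat.log 2 n + 1)) ∧
      |2 * ((univ.filter fun v => side v = true).card : ℤ) - n - m| ≤ K ∧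
      ∀ k, η' * (n : ℝ) ≤ ((M.filter fun v => side v = k).card : ℝ)) :
    ∃ (η : ℝ) (K : ℕ) (η' : ℝ), 0 < η ∧ 0 < η' ∧
    ∀ (n : ℕ) (T : PTree n), T.Deg Δ → K ≤ n →
    ((univ.filter fun v => T.Src v).card : ℝ) ≤ η * (n : ℝ) →
    ((univ.filter fun v => T.Snk v).card : ℝ) ≤ η * (n : ℝ) →
    ∀ kd : Bool → Bool → Bool, (∃ δ s, kd δ s = false) →
    ∀ m : ℤ, |(m : ℝ)| ≤ η' * (n : ℝ) →
    ∃ (side : Fin n → Bool) (Tc : Bool → Finset (Fin n)) (A : Finset (Fin n))
      (seg : Fin n → ℕ → Fin n), TreeIP T kd side Tc A seg ∧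
      (∀ δ, (Tc δ).card ≤ K * (Nat.log 2 n + 1)) ∧
      |2 * ((univ.filter fun v => side v = true).card : ℤ) - n - m| ≤ K ∧
      ∀ k, η' * (n : ℝ) ≤ ((A.filter fun a => side (seg a 0) = k).card : ℝ) := by
  obtain ⟨η, η₀, N, hη, hη₀, hseg⟩ := segments Δ
  obtain ⟨K₁, η₁, hη₁, hC⟩ := htreeC η₀ hη₀
  obtain ⟨N₂, hN₂⟩ := tp_log (2 * K₁ * (Δ + 2) ^ 3) (η₁ / 2) (by positivity)
  refine ⟨η, max (max K₁ N) N₂, η₁ / 2, hη, by positivity, ?_⟩
  intro n T hT hn hsrc hsnk kd hne m hm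
  have hK₁ : K₁ ≤ n := le_trans (le_trans (le_max_left _ _) (le_max_left _ _)) hn
  have hN : N ≤ n := le_trans (le_trans (le_max_right _ _) (le_max_left _ _)) hn
  have hN₂' : N₂ ≤ n := le_trans (le_max_right _ _) hn
  have hKle : K₁ ≤ max (max K₁ N) N₂ := le_trans (le_max_left _ _) (le_max_left _ _)
  have hn0 : (0 : ℝ) ≤ n := Nat.cast_nonneg n
  obtain ⟨A₀, seg, hA₀, hS⟩ := hseg n T hT hN hsrc hsnk T.col ∅ (by simp; positivity) (by
    intro v hv _ _
    rw [T.col_par v hv]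
    cases T.col (T.par v) <;> simp)
  have hinj4 : Set.InjOn (fun a => seg a 4) A₀ := by
    intro a ha a' ha' h
    by_contra hne'
    have h1 := hS.sep a ha a' ha' hne' 4 4 (by norm_num) (by norm_num)
    simp only at h
    rw [← h] at h1
    exact h1 (T.self_mem_ball 3 _)
  obtain ⟨side, Tc, hTC, hcard, hbal, hM⟩ := hC n T hT hK₁ kd hne m (by
    have : η₁ / 2 * (n : ℝ) ≤ η₁ * n := mul_le_mul_of_nonneg_right (by linarith) hn0
    linarith) (A₀.image fun a => seg a 4) (by
    rw [card_image_of_injOn hinj4]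
    exact hA₀)
  set B := Tc true ∪ Tc false with hB
  set A := A₀.filter fun a => tip_far T seg B a with hA
  have hAsub : ∀ a ∈ A, a ∈ A₀ := fun a ha => (mem_filter.1 ha).1
  have hAfar : ∀ a ∈ A, ∀ j, j ≤ 8 → ∀ b ∈ B, seg a j ∉ T.ball 3 b := fun a ha =>
    (mem_filter.1 ha).2
  have hAnot : ∀ a ∈ A, ∀ j, j ≤ 8 → seg a j ∉ B := by
    intro a ha j hj hmem
    exact hAfar a ha j hj _ hmem (T.self_mem_ball 3 _)
  have hconst : ∀ a ∈ A, ∀ j, j ≤ 8 → side (seg a j) = side (seg a 0) := by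
    intro a ha j
    induction j with
    | zero => intro _; rfl
    | succ j ih =>
      intro hj
      rw [← ih (by omega)]
      rcases hTC.arc _ _ (hS.arc a (hAsub a ha) j (by omega)) with h | h | h
      · exact h.symm
      · exact absurd h (hAnot a ha j (by omega))
      · exact absurd h (hAnot a ha (j + 1) hj)
  refine ⟨side, Tc, A, seg, ⟨⟨hTC.disj, ?_, hTC.arc, hTC.con⟩, ?_, hconst⟩, ?_, ?_, ?_⟩
  · intro a ha b hb hab h
    exact hTC.sep a ha b hb hab (T.ball_mono (by norm_num) a h)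
  · exact ⟨fun a ha => hS.arc a (hAsub a ha), fun a ha => hS.deg a (hAsub a ha),
      fun a ha => hS.pos a (hAsub a ha), fun a ha => hS.inj a (hAsub a ha),
      fun a ha => hS.dist a (hAsub a ha),
      fun a ha a' ha' => hS.sep a (hAsub a ha) a' (hAsub a' ha'),
      fun a ha j hj b hb => hAfar a ha j hj b hb⟩
  · intro δ
    exact (hcard δ).trans (Nat.mul_le_mul_right _ hKle)
  · exact hbal.trans (by exact_mod_cast hKle)
  · intro k
    have h1 := hM k
    have h2 : ((A₀.image fun a => seg a 4).filter fun v => side v = k).card ≤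
        (A.filter fun a => side (seg a 0) = k).card + B.card * (Δ + 2) ^ 3 := by
      have hsub : ((A₀.image fun a => seg a 4).filter fun v => side v = k) ⊆
          ((A.filter fun a => side (seg a 0) = k) ∪
            (A₀.filter fun a => ¬ tip_far T seg B a)).image
              fun a => seg a 4 := by
        intro v hv
        rw [mem_filter] at hv
        obtain ⟨hv1, hv2⟩ := hv
        obtain ⟨a, ha, rfl⟩ := mem_image.1 hv1
        refine mem_image_of_mem _ ?_
        rw [mem_union]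
        by_cases hfar : tip_far T seg B a
        · left
          have haA : a ∈ A := mem_filter.2 ⟨ha, hfar⟩
          exact mem_filter.2 ⟨haA, by rw [← hconst a haA 4 (by norm_num)]; exact hv2⟩
        · right
          exact mem_filter.2 ⟨ha, hfar⟩
      calc _ ≤ _ := card_le_card hsub
        _ ≤ _ := card_image_le
        _ ≤ _ := card_union_le _ _
        _ ≤ _ := Nat.add_le_add_left (tip_few T hT A₀ seg hS.sep B) _
    have h3 : B.card ≤ 2 * (K₁ * (Nat.log 2 n + 1)) := by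
      have : B.card ≤ (Tc true).card + (Tc false).card := card_union_le _ _
      have h4 := hcard true
      have h5 := hcard false
      omega
    have h6 : B.card * (Δ + 2) ^ 3 ≤ 2 * K₁ * (Δ + 2) ^ 3 * (Nat.log 2 n + 1) := by
      calc B.card * (Δ + 2) ^ 3 ≤ 2 * (K₁ * (Nat.log 2 n + 1)) * (Δ + 2) ^ 3 :=
            Nat.mul_le_mul_right _ h3
        _ = _ := by ring
    have h7 := hN₂ n hN₂'
    have h8 : ((B.card * (Δ + 2) ^ 3 : ℕ) : ℝ) ≤ η₁ / 2 * n :=
      le_trans (by exact_mod_cast h6) h7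
    have h9 : (((A₀.image fun a => seg a 4).filter fun v => side v = k).card : ℝ) ≤
        ((A.filter fun a => side (seg a 0) = k).card : ℝ) +
          ((B.card * (Δ + 2) ^ 3 : ℕ) : ℝ) := by exact_mod_cast h2
    linarith

end

end OT
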