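import Pool.Agent.Helper75.EX.TP
import Pool.Agent.Helper14.EX.LAY
import Pool.Agent.Helper23.EX.SG

/-!
# MP_2857a5_co : module TP, final form
-/

set_option autoImplicit false

open Finset
open scoped Classical

namespace OT

noncomputable section

theorem treeP (Δ : ℕ) : ∃ (η : ℝ) (K : ℕ) (η' : ℝ), 0 < η ∧ 0 < η' ∧
    ∀ (n : ℕ) (T : PTree n), T.Deg Δ → K ≤ n →
    ((univ.filter fun v => T.Src v).card : ℝ) ≤ η * (n : ℝ) →
    ((univ.filter fun v => T.Snk v).card : ℝ) ≤ η * (n : ℝ) → ∀ τ : Bool,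
    ∃ (pos : Fin n → Bool) (Tl : Finset (Fin n)) (hd : Fin n → Fin n) (A : Finset (Fin n))
      (seg : Fin n → ℕ → Fin n), TreeP T τ K η' pos Tl hd A seg :=
  treeP_of Δ (layout Δ 8 1 one_pos) (segments Δ)

end

end OT
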